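import Mathlib

namespace Pool.Agent.H.MP_8b7b81_co

open Set Metric Real Filter Topology MeasureTheory

/-- Unit vector of direction `θ`. -/
noncomputable def u (θ : ℝ) : ℂ := ⟨cos θ, sin θ⟩

@[simp] theorem u_re (θ : ℝ) : (u θ).re = cos θ := rfl
@[simp] theorem u_im (θ : ℝ) : (u θ).im = sin θ := rfl

theorem nsq (a : ℂ) : ‖a‖ ^ 2 = a.re ^ 2 + a.im ^ 2 := by
  rw [Complex.sq_norm, Complex.normSq_apply]; ring

theorem u_norm (θ : ℝ) : ‖u θ‖ = 1 :=
  (sq_eq_sq₀ (norm_nonneg _) zero_le_one).1 (by rw [nsq]; simp)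

theorem ip_le (a b : ℂ) : a.re * b.re + a.im * b.im ≤ ‖a‖ * ‖b‖ :=
  (abs_le_of_sq_le_sq' (by
    rw [mul_pow, nsq, nsq]; nlinarith [sq_nonneg (a.re * b.im - a.im * b.re)])
    (by positivity)).2

theorem u_eq (θ : ℝ) : u θ = circleMap 0 1 θ := by
  simp [circleMap, Complex.ext_iff, Complex.exp_ofReal_mul_I_re, Complex.exp_ofReal_mul_I_im]

theorem u_lip : LipschitzWith 1 u := by
  have := lipschitzWith_circleMap 0 1
  rw [map_one] at this
  exact (funext u_eq : u = _) ▸ this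

theorem u_cont : Continuous u := u_lip.continuous

theorem arc_small (c : ℂ) {N : Set ℝ} {a δ : ℝ} (hδ : 0 < δ) (h1 : δ ≤ 1)
    (hN : N ⊆ Ico a (a + δ)) :
    volume N ≤ ENNReal.ofReal (1 + δ) * μH[1] ((fun θ => c + u θ) '' N) := by
  have key : ∀ p ∈ N, ∀ q ∈ N, dist p q ≤ (1 + δ) * dist (c + u p) (c + u q) := by
    have k : ∀ p ∈ N, ∀ q ∈ N, p < q → dist p q ≤ (1 + δ) * dist (c + u p) (c + u q) := by
      intro p hp q hq h
      have a1 : q - p ≤ δ := by linarith [(hN hp).1, (hN hq).2]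
      have a2 := sin_gt_sub_cube (sub_pos.2 h)
      have a3 := ip_le (u q - u p) (u (p + π / 2))
      have a4 : (u q - u p).re * (u (p + π / 2)).re + (u q - u p).im * (u (p + π / 2)).im
          = sin (q - p) := by
        simp [cos_add_pi_div_two, sin_add_pi_div_two, sin_sub]; ring
      rw [u_norm, mul_one, a4] at a3
      rw [dist_add_left, dist_comm (u p), dist_eq_norm (u q), dist_comm, Real.dist_eq,
        abs_of_pos (sub_pos.2 h)]
      set y := q - p
      have y0 : 0 < y := sub_pos.2 h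
      have : y ^ 3 / 6 ≤ y * (δ / 2) := by nlinarith [mul_pos y0 y0]
      nlinarith [mul_pos y0 hδ, mul_nonneg (mul_pos y0 hδ).le (sub_nonneg.2 h1)]
    intro p hp q hq
    rcases lt_trichotomy p q with h | h | h
    · exact k p hp q hq h
    · simp [h]
    · rw [dist_comm, dist_comm (c + u p)]; exact k q hq p hp h
  have inj : InjOn (fun θ => c + u θ) N := fun p hp q hq e =>
    dist_le_zero.1 ((key p hp q hq).trans_eq (by simp only at e; rw [e]; simp))
  have L : LipschitzOnWith (1 + δ).toNNReal (Function.invFunOn (fun θ => c + u θ) N)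
      ((fun θ => c + u θ) '' N) := by
    refine LipschitzOnWith.of_dist_le' ?_
    rintro _ ⟨p, hp, rfl⟩ _ ⟨q, hq, rfl⟩
    rw [inj.leftInvOn_invFunOn hp, inj.leftInvOn_invFunOn hq]
    exact key p hp q hq
  have := L.hausdorffMeasure_image_le zero_le_one
  rwa [inj.invFunOn_image subset_rfl, hausdorffMeasure_real, ENNReal.rpow_one] at this

theorem u_inj (s : ℝ) : InjOn u (Ioo s (s + 2 * π)) := fun p hp q hq e => by
  have : cos (p - q) = 1 := by
    have a := congrArg Complex.re e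
    have b := congrArg Complex.im e
    simp only [u_re, u_im] at a b
    rw [cos_sub, a, b]; nlinarith [sin_sq_add_cos_sq q]
  exact sub_eq_zero.1 ((cos_eq_one_iff_of_lt_of_lt (by linarith [hp.1, hq.2])
    (by linarith [hq.1, hp.2])).1 this)

theorem arc (c : ℂ) {N : Set ℝ} {s : ℝ} (mN : MeasurableSet N) (hN : N ⊆ Ioo s (s + 2 * π)) :
    volume N ≤ μH[1] ((fun θ => c + u θ) '' N) := by
  have k : ∀ δ : ℝ, 0 < δ → δ ≤ 1 →
      volume N ≤ ENNReal.ofReal (1 + δ) * μH[1] ((fun θ => c + u θ) '' N) := fun δ h0 h1 => by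
    let M : ℤ → Set ℝ := fun n => N ∩ Ico (0 + n • δ) (0 + (n + 1) • δ)
    have e : N = ⋃ n, M n := by rw [← inter_iUnion, iUnion_Ico_add_zsmul h0, inter_univ]
    have inj : InjOn (fun θ => c + u θ) N := fun p hp q hq e =>
      u_inj s (hN hp) (hN hq) (add_left_cancel e)
    have dj := pairwise_disjoint_Ico_add_zsmul (0 : ℝ) δ
    conv_lhs => rw [e]
    conv_rhs => rw [e, image_iUnion]
    rw [measure_iUnion (μ := μH[1]) (f := fun n => (fun θ => c + u θ) '' M n)
      (fun i j hij => disjoint_image_image fun p hp q hq e =>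
        disjoint_left.1 (dj hij) hp.2 (inj hp.1 hq.1 e ▸ hq.2))
      fun n => (mN.inter measurableSet_Ico).image_of_continuousOn_injOn
        (continuous_const.add u_cont).continuousOn (inj.mono inter_subset_left),
      ← ENNReal.tsum_mul_left]
    refine (measure_iUnion_le _).trans (ENNReal.tsum_le_tsum fun n =>
      arc_small c (a := 0 + n • δ) h0 h1 fun θ h => ?_)
    have := h.2
    rwa [add_smul, one_smul, ← add_assoc] at this
  by_cases f : μH[1] ((fun θ => c + u θ) '' N) = ⊤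
  · simp [f]
  have l : Tendsto (fun δ : ℝ => ENNReal.ofReal (1 + δ) * μH[1] ((fun θ => c + u θ) '' N))
      (𝓝[>] 0) (𝓝 (ENNReal.ofReal (1 + 0) * μH[1] ((fun θ => c + u θ) '' N))) :=
    ENNReal.Tendsto.mul_const (ENNReal.tendsto_ofReal (tendsto_nhdsWithin_of_tendsto_nhds
      ((by fun_prop : Continuous fun δ : ℝ => 1 + δ).tendsto 0))) (Or.inr f)
  simpa using ge_of_tendsto l
    (eventually_of_mem (Ioc_mem_nhdsGT one_pos) fun δ h => k δ h.1 h.2)

/-- The stadium of radius `s` around the segment from `-1` to `1`. -/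
def St (s : ℝ) : Set ℂ := {z | ∃ a : ℝ, |a| ≤ 1 ∧ dist z a ≤ s}

theorem dsq (z : ℂ) (a : ℝ) : dist z a ^ 2 = (z.re - a) ^ 2 + z.im ^ 2 := by
  rw [dist_eq_norm, nsq]; simp

theorem dle {z : ℂ} {a s : ℝ} (hs : 0 ≤ s) :
    dist z a ≤ s ↔ (z.re - a) ^ 2 + z.im ^ 2 ≤ s ^ 2 := by
  rw [← dsq, sq_le_sq₀ dist_nonneg hs]

theorem St.nn {s : ℝ} {z : ℂ} (h : z ∈ St s) : 0 ≤ s := by
  obtain ⟨a, -, k⟩ := h; exact dist_nonneg.trans k

theorem St.im {s : ℝ} {z : ℂ} (h : z ∈ St s) : |z.im| ≤ s := by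
  have s0 := St.nn h
  obtain ⟨a, -, k⟩ := h
  rw [dle s0] at k
  exact abs_le_of_sq_le_sq (by nlinarith [sq_nonneg (z.re - a)]) s0

theorem St.right {s : ℝ} {z : ℂ} (h : z ∈ St s) (h1 : 1 ≤ z.re) :
    (z.re - 1) ^ 2 + z.im ^ 2 ≤ s ^ 2 := by
  have s0 := St.nn h
  obtain ⟨a, ha, k⟩ := h
  rw [dle s0] at k
  have := (abs_le.1 ha).2
  nlinarith

theorem St.left {s : ℝ} {z : ℂ} (h : z ∈ St s) (h1 : z.re ≤ -1) :
    (z.re + 1) ^ 2 + z.im ^ 2 ≤ s ^ 2 := by
  have s0 := St.nn h
  obtain ⟨a, ha, k⟩ := h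
  rw [dle s0] at k
  have := (abs_le.1 ha).1
  nlinarith

theorem St.compact (s : ℝ) : IsCompact (St s) := by
  have : St s = (fun p : ℂ × ℝ => p.1 + p.2) '' (closedBall 0 s ×ˢ Icc (-1) 1) := by
    ext z
    constructor
    · rintro ⟨a, ha, k⟩
      exact ⟨(z - a, a), ⟨by simpa [dist_eq_norm] using k, abs_le.1 ha⟩, by simp⟩
    · rintro ⟨⟨w, a⟩, ⟨k, ha⟩, rfl⟩
      exact ⟨a, abs_le.2 ha, by simpa [dist_eq_norm] using k⟩
  rw [this]
  exact ((isCompact_closedBall _ _).prod isCompact_Icc).image (by fun_prop)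

theorem St.convex (s : ℝ) : Convex ℝ (St s) := by
  rintro x ⟨a, ha, k⟩ y ⟨b, hb, l⟩ p q hp hq e
  refine ⟨p * a + q * b, ?_, ?_⟩
  · rw [abs_le] at *; constructor <;> nlinarith
  · have : p • x + q • y - ((p * a + q * b : ℝ) : ℂ) = p • (x - a) + q • (y - b) := by
      simp only [Complex.real_smul]; push_cast; ring
    rw [dist_eq_norm] at *
    rw [this]
    refine (norm_add_le _ _).trans ?_
    rw [norm_smul, norm_smul, Real.norm_of_nonneg hp, Real.norm_of_nonneg hq]
    have : p * s + q * s = s := by rw [← add_mul, e, one_mul]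
    linarith [mul_le_mul_of_nonneg_left k hp, mul_le_mul_of_nonneg_left l hq]

theorem vol_prod (A B : Set ℝ) : volume (A ×ℂ B) = volume A * volume B := by
  have := Complex.volume_preserving_equiv_real_prod.measure_preimage_equiv (A ×ˢ B)
  rw [Measure.volume_eq_prod, Measure.prod_prod] at this
  exact this

theorem St.vol {s : ℝ} (hs : 0 ≤ s) : volume (St s) = ENNReal.ofReal (π * s ^ 2 + 4 * s) := by
  have m : ∀ c : ℝ, MeasurableSet {z : ℂ | z.re < c} := fun c =>
    measurableSet_lt Complex.measurable_re measurable_const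
  have e1 : (St s ∩ {z | z.re < 1}) ∩ {z | z.re < -1} =
      (fun z => z + 1) ⁻¹' (closedBall 0 s ∩ {z | z.re < 0}) := by
    ext z
    simp only [mem_inter_iff, mem_ofPred_eq, mem_preimage, mem_closedBall, Complex.add_re,
      Complex.one_re, dist_zero_right]
    constructor
    · rintro ⟨⟨k, -⟩, l⟩
      refine ⟨?_, by linarith⟩
      rw [← sq_le_sq₀ (norm_nonneg _) hs, nsq]
      simpa using St.left k l.le
    · rintro ⟨k, l⟩
      exact ⟨⟨⟨-1, by simp, by simpa [dist_eq_norm] using k⟩, by linarith⟩, by linarith⟩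
  have e2 : St s \ {z | z.re < 1} = (fun z => z + -1) ⁻¹' (closedBall 0 s \ {z | z.re < 0}) := by
    ext z
    simp only [Set.mem_sdiff, mem_ofPred_eq, mem_preimage, mem_closedBall, Complex.add_re,
      Complex.one_re, dist_zero_right, Complex.neg_re, not_lt]
    constructor
    · rintro ⟨k, l⟩
      refine ⟨?_, by linarith⟩
      rw [← sq_le_sq₀ (norm_nonneg _) hs, nsq]
      simpa [sub_eq_add_neg] using St.right k l
    · rintro ⟨k, l⟩
      exact ⟨⟨1, by simp, by simpa [dist_eq_norm, sub_eq_add_neg] using k⟩, by linarith⟩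
  have e3 : (St s ∩ {z | z.re < 1}) \ {z | z.re < -1} = Ico (-1) 1 ×ℂ Icc (-s) s := by
    ext z
    simp only [Set.mem_sdiff, mem_inter_iff, mem_ofPred_eq, Complex.mem_reProdIm, mem_Ico, not_lt,
      mem_Icc, ← abs_le]
    constructor
    · rintro ⟨⟨k, l⟩, r⟩
      exact ⟨⟨r, l⟩, St.im k⟩
    · rintro ⟨⟨r, l⟩, k⟩
      refine ⟨⟨⟨z.re, abs_le.2 ⟨r, l.le⟩, ?_⟩, l⟩, r⟩
      rw [dle hs]; simpa using sq_le_sq' (abs_le.1 k).1 (abs_le.1 k).2
  rw [← measure_inter_add_sdiff _ (m 1), ← measure_inter_add_sdiff (St s ∩ _) (m (-1)), e1, e2, e3,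
    measure_preimage_add_right, measure_preimage_add_right, add_right_comm,
    measure_inter_add_sdiff _ (m 0), Complex.volume_closedBall, vol_prod, volume_Ico, volume_Icc,
    ← ENNReal.ofReal_mul (by norm_num), ← ENNReal.ofReal_pow hs,
    ← ENNReal.ofReal_coe_nnreal, ← ENNReal.ofReal_mul (by positivity),
    ← ENNReal.ofReal_add (by positivity) (by linarith)]
  congr 1
  simp; ring

theorem St.front {z w : ℂ} (hz : z ∈ St 1) (hw : ‖w‖ = 1)
    (h : ∀ a : ℝ, |a| ≤ 1 → 1 ≤ (z.re - a) * w.re + z.im * w.im) : z ∈ frontier (St 1) := by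
  refine ⟨subset_closure hz, fun hi => ?_⟩
  obtain ⟨ε, e0, he⟩ := Metric.isOpen_iff.1 isOpen_interior z hi
  obtain ⟨a, ha, k⟩ := interior_subset (he (show z + (ε / 2) • w ∈ ball z ε by
    simp [hw, abs_of_pos e0, e0]))
  have := ip_le (z + (ε / 2) • w - a) w
  have n := nsq w
  rw [hw] at this n
  rw [dist_eq_norm] at k
  have := h a ha
  simp only [Complex.sub_re, Complex.add_re, Complex.smul_re, Complex.ofReal_re, Complex.sub_im,
    Complex.add_im, Complex.smul_im, Complex.ofReal_im, smul_eq_mul] at *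
  nlinarith

theorem seg_iso (c : ℝ) : Isometry fun t : ℝ => (⟨t, c⟩ : ℂ) :=
  Isometry.of_dist_eq fun _ _ => Complex.dist_of_im_eq rfl

theorem seg (c : ℝ) (N : Set ℝ) : μH[1] ((fun t : ℝ => (⟨t, c⟩ : ℂ)) '' N) = volume N := by
  rw [(seg_iso c).hausdorffMeasure_image (Or.inl zero_le_one), hausdorffMeasure_real]

theorem St.per : ENNReal.ofReal (2 * π + 4) ≤ μH[1] (frontier (St 1)) := by
  have pi0 := pi_pos
  have m : ∀ c : ℝ, MeasurableSet {z : ℂ | z.re < c} := fun c =>
    measurableSet_lt Complex.measurable_re measurable_const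
  have m' : MeasurableSet {z : ℂ | 1 < z.re} :=
    measurableSet_lt measurable_const Complex.measurable_re
  have m2 : MeasurableSet {z : ℂ | z.im < 0} :=
    measurableSet_lt Complex.measurable_im measurable_const
  have a1 : ENNReal.ofReal π ≤ μH[1] (frontier (St 1) ∩ {z | 1 < z.re}) := by
    refine le_trans (by simp) ((arc 1 (s := -π) (N := Ioo (-(π / 2)) (π / 2)) measurableSet_Ioo
      (Ioo_subset_Ioo (by linarith) (by linarith))).trans (measure_mono ?_))
    rintro _ ⟨θ, h, rfl⟩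
    have := cos_pos_of_mem_Ioo h
    refine ⟨St.front ⟨1, by simp, by simp [u_norm]⟩ (u_norm θ) fun a ha => ?_, by simpa⟩
    simp only [Complex.add_re, Complex.one_re, u_re, Complex.add_im, Complex.one_im, u_im]
    nlinarith [sin_sq_add_cos_sq θ, (abs_le.1 ha).2]
  have a2 : ENNReal.ofReal π ≤ μH[1] ((frontier (St 1) \ {z | 1 < z.re}) ∩ {z | z.re < -1}) := by
    refine le_trans (by simp) ((arc (-1) (s := 0) (N := Ioo (π / 2) (π + π / 2)) measurableSet_Ioo
      (Ioo_subset_Ioo (by linarith) (by linarith))).trans (measure_mono ?_))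
    rintro _ ⟨θ, h, rfl⟩
    have := cos_neg_of_pi_div_two_lt_of_lt h.1 h.2
    refine ⟨⟨St.front ⟨-1, by simp, by simp [u_norm]⟩ (u_norm θ) fun a ha => ?_, ?_⟩, by simpa⟩
    · simp only [Complex.add_re, Complex.one_re, u_re, Complex.add_im, Complex.one_im, u_im,
        Complex.neg_re, Complex.neg_im]
      nlinarith [sin_sq_add_cos_sq θ, (abs_le.1 ha).1]
    · simp; linarith
  have a3 : ENNReal.ofReal 2 ≤
      μH[1] (((frontier (St 1) \ {z | 1 < z.re}) \ {z | z.re < -1}) ∩ {z | z.im < 0}) := by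
    refine le_trans (by simp; norm_num) ((seg (-1) (Icc (-1) 1)).ge.trans (measure_mono ?_))
    rintro _ ⟨t, h, rfl⟩
    refine ⟨⟨⟨St.front (w := -Complex.I) ⟨t, abs_le.2 h, by simp [dle]⟩ (by simp)
      fun a ha => by simp, ?_⟩, ?_⟩, by simp⟩
    · simpa using h.2
    · simpa using h.1
  have a4 : ENNReal.ofReal 2 ≤
      μH[1] (((frontier (St 1) \ {z | 1 < z.re}) \ {z | z.re < -1}) \ {z | z.im < 0}) := by
    refine le_trans (by simp; norm_num) ((seg 1 (Icc (-1) 1)).ge.trans (measure_mono ?_))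
    rintro _ ⟨t, h, rfl⟩
    refine ⟨⟨⟨St.front (w := Complex.I) ⟨t, abs_le.2 h, by simp [dle]⟩ (by simp)
      fun a ha => by simp, ?_⟩, ?_⟩, by simp⟩
    · simpa using h.2
    · simpa using h.1
  rw [← measure_inter_add_sdiff _ m', ← measure_inter_add_sdiff (_ \ _) (m (-1)),
    ← measure_inter_add_sdiff ((_ \ _) \ _) m2]
  refine le_trans (le_of_eq ?_) (add_le_add a1 (add_le_add a2 (add_le_add a3 a4)))
  rw [← ENNReal.ofReal_add (by positivity) (by positivity),
    ← ENNReal.ofReal_add (by positivity) (by positivity),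
    ← ENNReal.ofReal_add (by positivity) (by positivity)]
  congr 1; ring

theorem iso_vol (f : ℂ ≃ᵢ ℂ) (S : Set ℂ) : volume (f '' S) = volume S := by
  rw [← InnerProductSpace.euclideanHausdorffMeasure_eq_volume]
  exact f.isometry.euclideanHausdorffMeasure_image S

theorem iso_vol' (f : ℂ ≃ᵢ ℂ) (S : Set ℂ) : volume (f ⁻¹' S) = volume S := by
  rw [← iso_vol f, f.surjective.image_preimage]

end Pool.Agent.H.MP_8b7b81_co
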