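import Pool.Agent.H.MP_8b7b81_co.A

namespace Pool.Agent.H.MP_8b7b81_co

open Set Metric Real Filter Topology MeasureTheory

theorem shear {A B g g' : ℝ → ℝ} {S E : Set ℂ} (mS : MeasurableSet S) {K : ℝ}
    (h : ∀ w ∈ S, DifferentiableAt ℝ A w.im ∧ DifferentiableAt ℝ B w.im ∧
      HasDerivAt g (g' w.im) w.im ∧ |A w.im * g' w.im| ≤ K)
    (hE : ∀ z ∈ E, ∃ w ∈ S, z.re = A w.im * w.re + B w.im ∧ z.im = g w.im) :
    volume E ≤ ENNReal.ofReal K * volume S := by
  have P := Complex.volume_preserving_equiv_real_prod.symm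
  rw [← P.measure_preimage_equiv E, ← P.measure_preimage_equiv S]
  set s := Complex.measurableEquivRealProd.symm ⁻¹' S
  have ms : MeasurableSet s := P.measurable mS
  let f : ℝ × ℝ → ℝ × ℝ := fun p => (A p.2 * p.1 + B p.2, g p.2)
  let f' : ℝ × ℝ → ℝ × ℝ →L[ℝ] ℝ × ℝ := fun p => (Matrix.toLin (.finTwoProd ℝ) (.finTwoProd ℝ)
    !![A p.2, deriv A p.2 * p.1 + deriv B p.2; 0, g' p.2]).toContinuousLinearMap
  have d : ∀ p ∈ s, HasFDerivWithinAt f (f' p) s p := fun p hp => by
    have h1 : HasDerivAt A (deriv A p.2) p.2 := (h _ hp).1.hasDerivAt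
    have h2 : HasDerivAt B (deriv B p.2) p.2 := (h _ hp).2.1.hasDerivAt
    have h3 : HasDerivAt g (g' p.2) p.2 := (h _ hp).2.2.1
    apply HasFDerivAt.hasFDerivWithinAt
    simp only [f', Matrix.toLin_finTwoProd_toContinuousLinearMap]
    convert! HasFDerivAt.prodMk (𝕜 := ℝ)
      (((h1.comp_hasFDerivAt p hasFDerivAt_snd).mul hasFDerivAt_fst).add
        (h2.comp_hasFDerivAt p hasFDerivAt_snd))
      (h3.comp_hasFDerivAt p hasFDerivAt_snd) using 2
    · ext <;> simp [mul_comm]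
    · ext <;> simp
  calc _ ≤ volume (f '' s) := measure_mono fun p hp => by
        obtain ⟨w, hw, e1, e2⟩ := hE _ hp
        exact ⟨(w.re, w.im), hw, Prod.ext e1.symm e2.symm⟩
    _ ≤ _ := addHaar_image_le_lintegral_abs_det_fderiv volume ms d
    _ ≤ ∫⁻ _ in s, ENNReal.ofReal K := setLIntegral_mono' ms fun p hp => by
        refine ENNReal.ofReal_le_ofReal (le_trans (le_of_eq ?_) (h _ hp).2.2.2)
        simp only [f', LinearMap.det_toContinuousLinearMap, LinearMap.det_toLin,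
          Matrix.det_fin_two_of]
        simp
    _ = _ := by simp

theorem phi {μ : ℝ} (hμ : μ * (π + 4) = 4) : ∃ φ : ℝ → ℝ,
    (∀ y, HasDerivAt φ (2 - μ - μ * √(1 - y ^ 2)) y) ∧ φ 1 = 1 ∧ φ (-1) = -1 ∧
      ∀ y, |y| ≤ 1 → (μ * √(1 - y ^ 2)) ^ 2 + φ y ^ 2 ≤ 1 := by
  have p1 := pi_gt_three
  have p2 := pi_lt_d2
  have m1 : 0.55 < μ := by nlinarith
  have m2 : μ < 0.58 := by nlinarith
  let ψ : ℝ → ℝ := fun y => y - (∫ t in (-1)..y, √(1 - t ^ 2)) + π / 4
  have d : ∀ y, HasDerivAt ψ (1 - √(1 - y ^ 2)) y := fun y =>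
    ((hasDerivAt_id y).sub ((by fun_prop : Continuous fun t : ℝ =>
      √(1 - t ^ 2)).integral_hasStrictDerivAt (-1) y).hasDerivAt).add_const _
  have mo : Monotone ψ := monotone_of_hasDerivAt_nonneg d fun y => by
    simp only [Pi.zero_apply, sub_nonneg]
    exact sqrt_le_one.2 (by nlinarith [sq_nonneg y])
  have v1 : ψ 1 = 1 - π / 4 := by simp only [ψ, integral_sqrt_one_sub_sq]; ring
  have v2 : ψ (-1) = -1 + π / 4 := by simp [ψ]
  refine ⟨fun y => (2 - 2 * μ) * y + μ * ψ y, fun y => ?_, by simp only [v1]; linarith,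
    by simp only [v2]; linarith, fun y hy => ?_⟩
  · exact (((hasDerivAt_id y).const_mul (2 - 2 * μ)).add ((d y).const_mul μ)).congr_deriv
      (by ring)
  · have b1 := mo (abs_le.1 hy).1
    have b2 := mo (abs_le.1 hy).2
    rw [v2] at b1; rw [v1] at b2
    have t0 := abs_nonneg y
    have q : ((2 - 2 * μ) * y + μ * ψ y) ^ 2 ≤ (1 - (2 - 2 * μ) * (1 - |y|)) ^ 2 := by
      apply sq_le_sq' <;> nlinarith [le_abs_self y, neg_abs_le y]
    rw [mul_pow, sq_sqrt (by nlinarith [sq_abs y]), ← sq_abs y]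
    generalize |y| = r at *
    have : μ ^ 2 * (1 + r) + (2 - 2 * μ) ^ 2 * (1 - r) ≤ 2 * (2 - 2 * μ) := by nlinarith
    nlinarith [mul_le_mul_of_nonneg_left this (sub_nonneg.2 hy)]

theorem cheeger {μ h s : ℝ} (hμ : μ * (π + 4) = 4) (h0 : 0 < h) (h1 : h ≤ 1 / 2) (hs : s < 1 - h)
    {E F : Set ℂ} (mF : MeasurableSet F) (hE : E ⊆ St s)
    (hF : ∀ z ∈ E, ∀ w, dist w z ≤ h → w ∈ F) :
    volume E ≤ ENNReal.ofReal (1 / (1 + (2 - μ) * h)) * volume F := by
  obtain ⟨φ, d, v1, v2, b⟩ := phi hμ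
  have p1 := pi_gt_three
  have m1 : 0 < μ := by nlinarith
  have m2 : μ < 1 := by nlinarith
  let σ : ℝ → ℝ := fun y => √(1 - y ^ 2)
  let β : ℝ → ℝ := fun y => 1 + h * (μ * σ y)
  have s0 : ∀ y, 0 ≤ σ y := fun y => sqrt_nonneg _
  have s1 : ∀ y, σ y ≤ 1 := fun y => sqrt_le_one.2 (by nlinarith [sq_nonneg y])
  have b0 : ∀ y, 0 < β y := fun y => by have := s0 y; positivity
  have db : ∀ y, |y| < 1 → DifferentiableAt ℝ β y := fun y hy =>
    ((((differentiableAt_id.pow 2).const_sub 1).sqrt (by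
      have := sq_lt_one_iff_abs_lt_one y |>.2 hy
      exact (sub_pos.2 this).ne')).const_mul μ |>.const_mul h).const_add 1
  have mb : Measurable fun w : ℂ => β w.im := by fun_prop
  let α := 1 + h * (1 - μ)
  have a0 : 0 < α := by have := sub_pos.2 m2; positivity
  have l0 : 0 < 1 + (2 - μ) * h := by nlinarith
  let G := F ∩ {w | |w.im| < 1}
  have mG : MeasurableSet G := mF.inter (measurableSet_lt (by fun_prop) measurable_const)
  have mR : MeasurableSet {w : ℂ | β w.im < w.re} := measurableSet_lt mb Complex.measurable_re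
  have mL : MeasurableSet {w : ℂ | w.re < -β w.im} :=
    measurableSet_lt Complex.measurable_re mb.neg
  have near : ∀ z ∈ E, ∀ x y p q : ℝ, x = z.re + h * p → y = z.im + h * q → p ^ 2 + q ^ 2 ≤ 1 →
      (⟨x, y⟩ : ℂ) ∈ F := fun z hz x y p q e1 e2 k => hF z hz _ (by
    rw [← sq_le_sq₀ dist_nonneg h0.le, dist_eq_norm, nsq]
    simp only [Complex.sub_re, Complex.sub_im, e1, e2]
    nlinarith [mul_le_mul_of_nonneg_left k (sq_nonneg h)])
  have kc : |1 / α * (1 / (1 + h))| ≤ 1 / (1 + (2 - μ) * h) := by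
    rw [abs_of_pos (by positivity), div_mul_div_comm, one_mul]
    refine one_div_le_one_div_of_le l0 ?_
    simp only [α]; nlinarith [mul_pos (mul_pos h0 h0) (sub_pos.2 m2)]
  have dg : ∀ y : ℝ, HasDerivAt (fun y => y / (1 + h)) (1 / (1 + h)) y := fun y =>
    (hasDerivAt_id y).div_const _
  have cap : ∀ x y : ℝ, 0 < x → x ^ 2 + y ^ 2 ≤ s ^ 2 → |y| ≤ s → |(1 + h) * y| < 1 ∧
      (μ * σ ((1 + h) * y) + (1 - μ) * x) ^ 2 + y ^ 2 ≤ 1 := fun x y x0 k l => by
    have y0 := abs_nonneg y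
    have y1 : y ^ 2 ≤ 1 := by nlinarith [sq_abs y]
    refine ⟨by rw [abs_mul, abs_of_pos (by positivity)]; nlinarith, ?_⟩
    have c1 : σ ((1 + h) * y) ≤ σ y := sqrt_le_sqrt
      (by nlinarith [mul_nonneg (sq_nonneg y) h0.le, mul_nonneg (sq_nonneg y) (sq_nonneg h)])
    have c2 : x ≤ σ y := le_sqrt_of_sq_le (by nlinarith)
    have c3 : σ y ^ 2 = 1 - y ^ 2 := sq_sqrt (by linarith)
    have c4 : μ * σ ((1 + h) * y) + (1 - μ) * x ≤ σ y := by nlinarith
    have c5 := pow_le_pow_left₀ (by have := s0 ((1 + h) * y); nlinarith) c4 2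
    linarith
  have r : volume (E ∩ {z | 1 < z.re}) ≤ _ * volume (G ∩ {w | β w.im < w.re}) :=
    shear (A := fun _ => 1 / α) (B := fun y => 1 - β y / α) (g := fun y => y / (1 + h))
      (g' := fun _ => 1 / (1 + h)) (K := 1 / (1 + (2 - μ) * h)) (mG.inter mR)
      (fun w hw => ⟨differentiableAt_const _, ((db _ hw.1.2).div_const _).const_sub _, dg _, kc⟩)
      fun z ⟨hz, k⟩ => by
        have k : 1 < z.re := k
        obtain ⟨c1, c2⟩ := cap _ _ (sub_pos.2 k) (St.right (hE hz) k.le) (St.im (hE hz))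
        refine ⟨⟨β ((1 + h) * z.im) + α * (z.re - 1), (1 + h) * z.im⟩,
          ⟨⟨near z hz _ _ _ _ (by simp only [α, β]; ring) (by ring) c2, c1⟩, ?_⟩, ?_, ?_⟩
        · simpa using mul_pos a0 (sub_pos.2 k)
        · simp only; field_simp; ring
        · simp only; field_simp
  have l : volume ((E \ {z | 1 < z.re}) ∩ {z | z.re < -1}) ≤
      _ * volume ((G \ {w | β w.im < w.re}) ∩ {w | w.re < -β w.im}) :=
    shear (A := fun _ => 1 / α) (B := fun y => -1 + β y / α) (g := fun y => y / (1 + h))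
      (g' := fun _ => 1 / (1 + h)) (K := 1 / (1 + (2 - μ) * h)) ((mG.diff mR).inter mL)
      (fun w hw => ⟨differentiableAt_const _, ((db _ hw.1.1.2).div_const _).const_add _, dg _, kc⟩)
      fun z ⟨⟨hz, _⟩, k⟩ => by
        have k : z.re < -1 := k
        obtain ⟨c1, c2⟩ := cap (-(z.re + 1)) z.im (by linarith)
          (by rw [neg_sq]; exact St.left (hE hz) k.le) (St.im (hE hz))
        have t : α * (z.re + 1) < 0 := mul_neg_of_pos_of_neg a0 (by linarith)
        rw [← neg_sq] at c2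
        refine ⟨⟨-β ((1 + h) * z.im) + α * (z.re + 1), (1 + h) * z.im⟩,
          ⟨⟨⟨near z hz _ _ _ _ (by simp only [α, β]; ring) (by ring) c2, c1⟩, ?_⟩, ?_⟩, ?_, ?_⟩
        · simp only [mem_ofPred_eq, not_lt]; linarith [b0 ((1 + h) * z.im)]
        · simpa using t
        · simp only; field_simp; ring
        · simp only; field_simp
  have m : volume ((E \ {z | 1 < z.re}) \ {z | z.re < -1}) ≤ ENNReal.ofReal (1 / (1 + (2 - μ) * h))
      * volume ((G \ {w | β w.im < w.re}) \ {w | w.re < -β w.im}) :=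
    shear (A := fun y => 1 / β y) (B := fun _ => 0) (g := fun y => y - h * φ y)
      (g' := fun y => 1 - h * (2 - μ - μ * σ y)) ((mG.diff mR).diff mL)
      (fun w hw => ⟨(differentiableAt_const _).div (db _ hw.1.1.2) (b0 _).ne',
        differentiableAt_const _, (hasDerivAt_id _).sub ((d _).const_mul h), by
          have t0 := s0 w.im
          have t1 := s1 w.im
          have t2 := b0 w.im
          have t3 : 0 ≤ 1 - h * (2 - μ - μ * σ w.im) := by nlinarith [mul_nonneg m1.le t0]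
          rw [abs_of_nonneg (by positivity), one_div_mul_eq_div, div_le_div_iff₀ t2 l0]
          have t4 : 0 ≤ 2 - μ - μ * σ w.im := by nlinarith
          simp only [β]
          nlinarith [mul_nonneg (mul_nonneg (sq_nonneg h) (by linarith : 0 ≤ 2 - μ)) t4]⟩)
      fun z ⟨⟨hz, k1⟩, k2⟩ => by
        have k1 : z.re ≤ 1 := not_lt.1 k1
        have k2 : -1 ≤ z.re := not_lt.1 k2
        have cφ : Continuous φ := continuous_iff_continuousAt.2 fun y => (d y).continuousAt
        obtain ⟨y, hy, e⟩ := intermediate_value_Ioo (a := -1) (b := 1)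
          (f := fun y => y - h * φ y) (by norm_num) (by fun_prop) (show z.im ∈ _ by
            have := abs_le.1 (St.im (hE hz))
            simp only [v1, v2]; constructor <;> linarith)
        have e : y - h * φ y = z.im := e
        have t := b y (abs_le.2 ⟨hy.1.le, hy.2.le⟩)
        have t2 := b0 y
        refine ⟨⟨β y * z.re, y⟩, ⟨⟨⟨near z hz _ _ (μ * σ y * z.re) (φ y) (by simp only [β]; ring)
          (by linarith) ?_, abs_lt.2 hy⟩, ?_⟩, ?_⟩, ?_, e.symm⟩
        · have : z.re ^ 2 ≤ 1 := by nlinarith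
          rw [mul_pow]
          nlinarith [mul_le_mul_of_nonneg_left this (sq_nonneg (μ * σ y))]
        · simp only [mem_ofPred_eq, not_lt]; nlinarith
        · simp only [mem_ofPred_eq, not_lt]; nlinarith
        · simp only; field_simp; ring
  refine le_trans ?_ (mul_le_mul_right (measure_mono (inter_subset_left : G ⊆ F)) _)
  rw [← measure_inter_add_sdiff G mR, ← measure_inter_add_sdiff (G \ _) mL, mul_add, mul_add]
  exact (measure_le_inter_add_sdiff _ _ _).trans (add_le_add r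
    ((measure_le_inter_add_sdiff _ _ _).trans (add_le_add l m)))

end Pool.Agent.H.MP_8b7b81_co
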