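import Pool.Agent.H.MP_8b7b81_co.B

namespace Pool.Agent.H.MP_8b7b81_co

open Set Metric Real Filter Topology MeasureTheory

variable {ι : Type*}

/-- Union of congruent stadiums of radius `s`. -/
def U (f : ι → ℂ ≃ᵢ ℂ) (t : Finset ι) (s : ℝ) : Set ℂ := ⋃ i ∈ t, f i '' St s

theorem U.compact (f : ι → ℂ ≃ᵢ ℂ) (t : Finset ι) (s : ℝ) : IsCompact (U f t s) :=
  t.isCompact_biUnion fun i _ => (St.compact s).image (f i).continuous

theorem mem_im (g : ℂ ≃ᵢ ℂ) {s : ℝ} {z : ℂ} :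
    z ∈ g '' St s ↔ ∃ a : ℝ, |a| ≤ 1 ∧ dist z (g a) ≤ s := by
  constructor
  · rintro ⟨w, ⟨a, ha, k⟩, rfl⟩
    exact ⟨a, ha, by rwa [g.dist_eq]⟩
  · rintro ⟨a, ha, k⟩
    exact ⟨g.symm z, ⟨a, ha, by rwa [← g.dist_eq, g.apply_symm_apply]⟩, by simp⟩

theorem grow (g : ℂ ≃ᵢ ℂ) {s h : ℝ} {z w : ℂ} (hz : z ∈ g '' St s) (hw : dist w z ≤ h)
    (hs : s + h ≤ 1) : w ∈ g '' St 1 := by
  obtain ⟨a, ha, k⟩ := (mem_im g).1 hz
  exact (mem_im g).2 ⟨a, ha, by linarith [dist_triangle w z (g a)]⟩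

theorem chain {μ h : ℝ} (hμ : μ * (π + 4) = 4) (h0 : 0 < h) (h1 : h ≤ 1 / 2)
    (f : ι → ℂ ≃ᵢ ℂ) (t : Finset ι) : volume.real (U f t 1) ≤
      (1 + (2 - μ) * h) * volume.real (U f t (1 - h - h ^ 2)) + t.card * (60 * h ^ 2) := by
  classical
  have p1 := pi_gt_three
  have p2 := pi_lt_d2
  have m1 : 0 < μ := by nlinarith
  have m2 : μ < 1 := by nlinarith
  have l0 : 0 < 1 + (2 - μ) * h := by nlinarith
  induction t using Finset.induction_on with
  | empty => simp [U]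
  | insert i t hi ih =>
    have c : ∀ s, IsCompact (f i '' St s) := fun s => (St.compact s).image (f i).continuous
    have e : ∀ s, 0 ≤ s → volume.real (U f (insert i t) s) + volume.real (f i '' St s ∩ U f t s) =
        π * s ^ 2 + 4 * s + volume.real (U f t s) := fun s hs => by
      rw [U, Finset.set_biUnion_insert, ← U, measureReal_union_add_inter
        (U.compact f t s).measurableSet (c s).measure_ne_top (U.compact f t s).measure_ne_top,
        Measure.real, iso_vol, St.vol hs, ENNReal.toReal_ofReal (by positivity)]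
    have k := cheeger (s := 1 - h - h ^ 2) (E := f i ⁻¹' (f i '' St (1 - h - h ^ 2) ∩
      U f t (1 - h - h ^ 2))) (F := f i ⁻¹' (f i '' St 1 ∩ U f t 1)) hμ h0 h1 (by nlinarith)
      ((f i).continuous.measurable ((c 1).measurableSet.inter (U.compact f t 1).measurableSet))
      (fun z hz => ((f i).injective.mem_set_image).1 hz.1) fun z hz w hw => by
        rw [← (f i).dist_eq] at hw
        refine ⟨grow _ hz.1 hw (by nlinarith), ?_⟩
        obtain ⟨j, hj, k⟩ := mem_iUnion₂.1 hz.2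
        exact mem_iUnion₂.2 ⟨j, hj, grow _ k hw (by nlinarith)⟩
    rw [iso_vol', iso_vol'] at k
    have k2 := ENNReal.toReal_mono (ENNReal.mul_ne_top ENNReal.ofReal_ne_top
      ((c 1).inter_right (U.compact f t 1).isClosed).measure_ne_top) k
    rw [ENNReal.toReal_mul, ENNReal.toReal_ofReal (by positivity), one_div_mul_eq_div,
      le_div_iff₀ l0, ← Measure.real, ← Measure.real] at k2
    have e1 := e 1 zero_le_one
    have e2 := congrArg (· * (1 + (2 - μ) * h)) (e (1 - h - h ^ 2) (by nlinarith))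
    have n : π + 4 ≤ (π * (1 - h - h ^ 2) ^ 2 + 4 * (1 - h - h ^ 2)) * (1 + (2 - μ) * h)
        + 60 * h ^ 2 := by
      have a1 : π + 4 - (2 * π + 4) * (h + h ^ 2) ≤
          π * (1 - h - h ^ 2) ^ 2 + 4 * (1 - h - h ^ 2) := by
        nlinarith [mul_nonneg pi_pos.le (sq_nonneg (h + h ^ 2))]
      have a2 := mul_le_mul_of_nonneg_right a1 l0.le
      have a3 : (π + 4) * ((2 - μ) * h) = (2 * π + 4) * h := by linear_combination (-h) * hμ
      have a4 : (h + h ^ 2) * ((2 - μ) * h) ≤ 4 * h ^ 2 := by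
        have : (1 + h) * (2 - μ) ≤ 4 := by nlinarith
        nlinarith [mul_le_mul_of_nonneg_left this (sq_nonneg h)]
      have a5 := mul_le_mul (show 2 * π + 4 ≤ 11 by linarith) a4 (by nlinarith) (by norm_num)
      nlinarith [sq_nonneg h]
    rw [Finset.card_insert_of_notMem hi]
    push_cast
    linarith

/-- Inner collar over a set of boundary points. -/
def W (Z : Set ℂ) (h : ℝ) (K : Set ℂ) : Set ℂ :=
  {y | ∃ x ∈ K, ∃ c ∈ Z, dist x y ≤ h ∧ dist x y + dist y c ≤ 1}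

theorem W.compact {Z K : Set ℂ} (h : ℝ) (hZ : IsCompact Z) (hK : IsCompact K) :
    IsCompact (W Z h K) := by
  have : W Z h K = (fun p : ℂ × ℂ × ℂ => p.2.1 - p.1) '' ((closedBall 0 h ×ˢ K ×ˢ Z) ∩
      {p | ‖p.1‖ + dist (p.2.1 - p.1) p.2.2 ≤ 1}) := by
    ext y
    constructor
    · rintro ⟨x, hx, c, hc, k, l⟩
      exact ⟨(x - y, x, c), ⟨⟨by simpa [dist_eq_norm] using k, hx, hc⟩,
        by simpa [dist_eq_norm] using l⟩, by simp⟩
    · rintro ⟨⟨v, x, c⟩, ⟨⟨k, hx, hc⟩, l⟩, rfl⟩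
      exact ⟨x, hx, c, hc, by simpa [dist_eq_norm] using k, by simpa [dist_eq_norm] using l⟩
  rw [this]
  exact (((isCompact_closedBall _ _).prod (hK.prod hZ)).inter_right
    (isClosed_le (by fun_prop) continuous_const)).image (by fun_prop)

theorem uniq {h : ℝ} (h1 : h < 1) {x x' y c c' : ℂ} (a : 1 ≤ dist x c) (b : 1 ≤ dist x c')
    (a' : 1 ≤ dist x' c) (k : dist x y + dist y c ≤ 1) (k' : dist x' y + dist y c' ≤ 1)
    (l : dist x y ≤ h) : x = x' := by
  have t1 := dist_triangle x y c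
  have t2 := dist_triangle x y c'
  have t3 := dist_triangle x' y c
  simp only [dist_eq_norm] at *
  have r1 : SameRay ℝ (x - y) (y - c) := sameRay_iff_norm_add.2 (by
    rw [sub_add_sub_cancel]; linarith)
  have r2 : SameRay ℝ (x' - y) (y - c) := sameRay_iff_norm_add.2 (by
    rw [sub_add_sub_cancel]; linarith)
  refine sub_left_injective ((r1.trans r2.symm fun e => ?_).eq_of_norm_eq (by linarith))
  rw [e, norm_zero] at t1
  linarith

/-- A boundary piece whose collars are large. -/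
def Pc (Z : Set ℂ) (h : ℝ) (γ : ℝ → ℂ) (J : Set ℝ) : Prop :=
  LipschitzWith 1 γ ∧ IsCompact J ∧ ∀ T ⊆ J, MeasurableSet T → ∀ X, MeasurableSet X →
    W Z h (γ '' T) ⊆ X → ENNReal.ofReal (h * (1 - h)) * volume T ≤ volume X

theorem Pc.map {Z Z' : Set ℂ} {h : ℝ} {γ : ℝ → ℂ} {J : Set ℝ} (H : Pc Z h γ J) (g : ℂ ≃ᵢ ℂ)
    (hg : ∀ c ∈ Z, g c ∈ Z') : Pc Z' h (g ∘ γ) J := by
  refine ⟨by simpa using g.isometry.lipschitz.comp H.1, H.2.1, fun T hT mT X mX k => ?_⟩
  rw [← iso_vol' g X]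
  refine H.2.2 T hT mT _ (g.continuous.measurable mX) ?_
  rintro y ⟨_, ⟨t, ht, rfl⟩, c, hc, p, q⟩
  exact k ⟨_, ⟨t, ht, rfl⟩, g c, hg c hc, by simpa [g.dist_eq] using p,
    by simpa [g.dist_eq] using q⟩

/-- The core segment. -/
def Z0 : Set ℂ := {c | ∃ a : ℝ, |a| ≤ 1 ∧ c = a}

theorem pc_top {h : ℝ} (h0 : 0 < h) (h1 : h < 1) :
    Pc Z0 h (fun t => (⟨t, 1⟩ : ℂ)) (Icc (-1) 1) := by
  refine ⟨(seg_iso 1).lipschitz, isCompact_Icc, fun T hT mT X mX k => ?_⟩
  refine le_trans ?_ (measure_mono (show T ×ℂ Icc (1 - h) 1 ⊆ X from fun y hy => k ?_))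
  · rw [vol_prod, volume_Icc, mul_comm]
    exact mul_le_mul_right (ENNReal.ofReal_le_ofReal (by nlinarith)) _
  · have e1 : dist (⟨y.re, 1⟩ : ℂ) y = 1 - y.im := by
      rw [Complex.dist_of_re_eq (by simp), Real.dist_eq, abs_of_nonneg (sub_nonneg.2 hy.2.2)]
    have e2 : dist y (y.re : ℂ) = y.im := by
      rw [Complex.dist_of_re_eq (by simp), Real.dist_eq, Complex.ofReal_im, sub_zero,
        abs_of_nonneg (by linarith [hy.2.1])]
    exact ⟨_, ⟨y.re, hy.1, rfl⟩, y.re, ⟨_, abs_le.2 (hT hy.1), rfl⟩,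
      by rw [e1]; linarith [hy.2.1], by rw [e1, e2]; linarith⟩

theorem pc_arc {h : ℝ} (h0 : 0 < h) (h1 : h < 1) :
    Pc Z0 h (fun θ => 1 + u θ) (Icc (-2) 2) := by
  refine ⟨by simpa [Function.comp_def] using (isometry_add_left (1 : ℂ)).lipschitz.comp u_lip,
    isCompact_Icc,
    fun T hT mT X mX k => ?_⟩
  have p1 := pi_gt_three
  have m : MeasurableSet ((fun z : ℂ => 1 + z) ⁻¹' X) := measurable_const_add 1 mX
  rw [← measure_preimage_add _ 1 X, ← lintegral_indicator_one m,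
    ← Complex.lintegral_comp_polarCoord_symm]
  calc _ = ∫⁻ _ in Icc (1 - h) 1 ×ˢ T, ENNReal.ofReal (1 - h) := by
        rw [setLIntegral_const, Measure.volume_eq_prod, Measure.prod_prod, volume_Icc,
          ← mul_assoc, ← ENNReal.ofReal_mul (by linarith)]
        congr 2; ring
    _ ≤ ∫⁻ p in Icc (1 - h) 1 ×ˢ T, ENNReal.ofReal p.1 •
        ((fun z : ℂ => 1 + z) ⁻¹' X).indicator 1 (Complex.polarCoord.symm p) :=
        setLIntegral_mono' (measurableSet_Icc.prod mT) fun p hp => by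
          have e : Complex.polarCoord.symm p = p.1 • u p.2 := by
            simp [Complex.ext_iff, Complex.cos_ofReal_re, Complex.sin_ofReal_re]
          have e1 : dist (1 + u p.2) (1 + p.1 • u p.2) = 1 - p.1 := by
            rw [dist_add_left, dist_eq_norm, show u p.2 - p.1 • u p.2 = (1 - p.1) • u p.2 by module,
              norm_smul, u_norm, mul_one, Real.norm_of_nonneg (sub_nonneg.2 hp.1.2)]
          have e2 : dist (1 + p.1 • u p.2) 1 = p.1 := by
            rw [dist_eq_norm, add_sub_cancel_left, norm_smul, u_norm, mul_one,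
              Real.norm_of_nonneg (by linarith [hp.1.1])]
          rw [indicator_of_mem, Pi.one_apply, smul_eq_mul, mul_one]
          · exact ENNReal.ofReal_le_ofReal hp.1.1
          · rw [e]
            exact k ⟨_, ⟨p.2, hp.2, rfl⟩, 1, ⟨1, by simp, by simp⟩,
              by rw [e1]; linarith [hp.1.1], by rw [e1, e2]; linarith⟩
    _ ≤ _ := lintegral_mono_set fun p hp => show p ∈ Ioi 0 ×ˢ Ioo (-π) π from
        ⟨show 0 < p.1 by linarith [hp.1.1], by linarith [(hT hp.2).1], by linarith [(hT hp.2).2]⟩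

/-- A compact part of `V` whose length is controlled by the area of its collar. -/
def Good (Z V : Set ℂ) (h : ℝ) (L : Set ℂ) : Prop :=
  IsCompact L ∧ L ⊆ V ∧ ENNReal.ofReal (h * (1 - h)) * μH[1] L ≤ volume (W Z h L)

theorem Pc.step {Z V L : Set ℂ} {h : ℝ} {γ : ℝ → ℂ} {J : Set ℝ} (h1 : h < 1) (hZ : IsCompact Z)
    (hV : IsClosed V) (far : ∀ x ∈ V, ∀ c ∈ Z, 1 ≤ dist x c) (H : Pc Z h γ J)
    (G : Good Z V h L) : Good Z V h (L ∪ V ∩ γ '' J) := by
  have cg := H.1.continuous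
  have cK : IsCompact (L ∪ V ∩ γ '' J) := G.1.union ((H.2.1.image cg).inter_left hV)
  refine ⟨cK, union_subset G.2.1 inter_subset_left, ?_⟩
  have mT : MeasurableSet (J ∩ γ ⁻¹' (V \ L)) :=
    H.2.1.measurableSet.inter (cg.measurable (hV.measurableSet.diff G.1.measurableSet))
  have mL := (W.compact h hZ G.1).measurableSet
  have k := H.2.2 _ inter_subset_left mT _ ((W.compact h hZ cK).measurableSet.diff mL) (by
    rintro y ⟨_, ⟨t, ht, rfl⟩, c, hc, p, q⟩
    refine ⟨⟨_, Or.inr ⟨ht.2.1, t, ht.1, rfl⟩, c, hc, p, q⟩, ?_⟩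
    rintro ⟨x', hx, c', hc', -, q'⟩
    exact ht.2.2 (uniq h1 (far _ ht.2.1 c hc) (far _ ht.2.1 c' hc') (far _ (G.2.1 hx) c hc)
      q q' p ▸ hx))
  have l := (H.1.lipschitzOnWith (s := J ∩ γ ⁻¹' (V \ L))).hausdorffMeasure_image_le zero_le_one
  rw [hausdorffMeasure_real] at l
  simp only [ENNReal.coe_one, ENNReal.rpow_one, one_mul] at l
  have s : L ∪ V ∩ γ '' J ⊆ L ∪ γ '' (J ∩ γ ⁻¹' (V \ L)) := by
    intro x hx
    by_cases e : x ∈ L
    · exact Or.inl e
    · obtain ⟨a, t, ht, rfl⟩ := hx.resolve_left e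
      exact Or.inr ⟨t, ⟨ht, a, e⟩, rfl⟩
  rw [← measure_inter_add_sdiff (μ := volume) _ mL]
  refine (mul_le_mul_right ((measure_mono s).trans ((measure_union_le _ _).trans
    (add_le_add_right l _))) _).trans ?_
  rw [mul_add]
  refine add_le_add (G.2.2.trans (measure_mono fun y hy => ⟨?_, hy⟩)) k
  obtain ⟨x, hx, r⟩ := hy
  exact ⟨x, Or.inl hx, r⟩

theorem arcm {y : ℂ} (a : (y.re - 1) ^ 2 + y.im ^ 2 = 1 ^ 2) (k : 1 ≤ y.re) :
    ∃ θ ∈ Icc (-2 : ℝ) 2, 1 + u θ = y := by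
  have n : ‖y - 1‖ = 1 := (sq_eq_sq₀ (norm_nonneg _) zero_le_one).1 (by
    rw [nsq]; simpa using a)
  have c := abs_le.1 (Complex.abs_arg_le_pi_div_two_iff.2 (show 0 ≤ (y - 1).re by simpa))
  have d := Complex.norm_mul_cos_add_sin_mul_I (y - 1)
  rw [n] at d
  refine ⟨(y - 1).arg, ⟨by linarith [pi_le_four], by linarith [pi_le_four]⟩, ?_⟩
  generalize (y - 1).arg = θ at d
  rw [← add_sub_cancel 1 y, ← d]
  simp [Complex.ext_iff, Complex.cos_ofReal_re, Complex.sin_ofReal_re]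

theorem cover {y : ℂ} (hy : y ∈ St 1) (far : ∀ a : ℝ, |a| ≤ 1 → 1 ≤ dist y a) :
    ((∃ t ∈ Icc (-1 : ℝ) 1, (⟨t, 1⟩ : ℂ) = y) ∨ ∃ θ ∈ Icc (-2 : ℝ) 2, 1 + u θ = y) ∨
      (∃ t ∈ Icc (-1 : ℝ) 1, (⟨t, 1⟩ : ℂ) = -y) ∨ ∃ θ ∈ Icc (-2 : ℝ) 2, 1 + u θ = -y := by
  have b : ∀ a : ℝ, |a| ≤ 1 → 1 ^ 2 ≤ (y.re - a) ^ 2 + y.im ^ 2 := fun a ha =>
    dsq y a ▸ pow_le_pow_left₀ zero_le_one (far a ha) 2
  rcases le_total 1 y.re with k | k
  · exact Or.inl (Or.inr (arcm (le_antisymm (St.right hy k) (b 1 (by simp))) k))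
  rcases le_total y.re (-1) with l | l
  · refine Or.inr (Or.inr (arcm ?_ (by simp; linarith)))
    have := St.left hy l
    have := b (-1) (by simp)
    simp only [Complex.neg_re, Complex.neg_im]
    linarith
  have c := b _ (abs_le.2 ⟨l, k⟩)
  have d := abs_le.1 (St.im hy)
  rcases le_total 0 y.im with m | m
  · exact Or.inl (Or.inl ⟨y.re, ⟨l, k⟩, Complex.ext rfl (show 1 = y.im by nlinarith)⟩)
  · exact Or.inr (Or.inl ⟨-y.re, ⟨by linarith, by linarith⟩,
      Complex.ext rfl (show 1 = -y.im by nlinarith)⟩)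

theorem collar {h s : ℝ} (h0 : 0 < h) (h1 : h < 1) (hs : s < 1 - h) (f : ι → ℂ ≃ᵢ ℂ)
    (t : Finset ι) : ENNReal.ofReal (h * (1 - h)) * μH[1] (frontier (U f t 1)) ≤
      volume (U f t 1 \ U f t s) := by
  classical
  let Z := U f t 0
  let V := frontier (U f t 1)
  have mz : ∀ {c}, c ∈ Z ↔ ∃ i ∈ t, ∃ a : ℝ, |a| ≤ 1 ∧ c = f i a := by
    simp only [Z, U, mem_iUnion, mem_im, dist_le_zero, exists_prop, implies_true]
  have mu : ∀ {r z}, z ∈ U f t r ↔ ∃ c ∈ Z, dist z c ≤ r := by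
    intro r z
    simp only [mz, U, mem_iUnion, mem_im, exists_prop]
    exact ⟨fun ⟨i, hi, a, ha, k⟩ => ⟨_, ⟨i, hi, a, ha, rfl⟩, k⟩,
      fun ⟨_, ⟨i, hi, a, ha, e⟩, k⟩ => ⟨i, hi, a, ha, e ▸ k⟩⟩
  have far : ∀ x ∈ V, ∀ c ∈ Z, 1 ≤ dist x c := fun x hx c hc => not_lt.1 fun k =>
    hx.2 (interior_maximal (fun z hz => mu.2 ⟨c, hc, le_of_lt hz⟩) isOpen_ball
      (show x ∈ ball c 1 from k))
  let n : ℂ ≃ᵢ ℂ := (LinearIsometryEquiv.neg ℝ).toIsometryEquiv
  have nz : ∀ z, n z = -z := fun _ => rfl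
  let K : (ℂ ≃ᵢ ℂ) → Set ℂ := fun g => (g ∘ fun t => (⟨t, 1⟩ : ℂ)) '' Icc (-1) 1 ∪
    (g ∘ fun θ => 1 + u θ) '' Icc (-2) 2
  have sK : ∀ g : ℂ ≃ᵢ ℂ, (∀ c ∈ Z0, g c ∈ Z) → ∀ L, Good Z V h L → Good Z V h (L ∪ V ∩ K g) :=
    fun g hg L G => by
      rw [inter_union_distrib_left, ← union_assoc]
      exact ((pc_arc h0 h1).map g hg).step h1 (U.compact f t 0) isClosed_frontier far
        (((pc_top h0 h1).map g hg).step h1 (U.compact f t 0) isClosed_frontier far G)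
  have ind : ∀ r ⊆ t, Good Z V h (V ∩ ⋃ i ∈ r, K (f i) ∪ K (n.trans (f i))) := by
    intro r
    induction r using Finset.induction_on with
    | empty => intro; simp [Good]
    | insert i r hi ih =>
      intro hr
      have hi := hr (Finset.mem_insert_self i r)
      rw [Finset.set_biUnion_insert, union_comm, inter_union_distrib_left,
        inter_union_distrib_left, ← union_assoc]
      refine sK _ ?_ _ (sK _ ?_ _ (ih ((Finset.subset_insert i r).trans hr)))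
      · rintro _ ⟨a, ha, rfl⟩
        exact mz.2 ⟨i, hi, -a, by simpa, by simp [nz]⟩
      · rintro _ ⟨a, ha, rfl⟩
        exact mz.2 ⟨i, hi, a, ha, rfl⟩
  have G := (ind t subset_rfl).2.2
  rw [inter_eq_left.2] at G
  · refine G.trans (measure_mono ?_)
    rintro y ⟨x, hx, c, hc, p, q⟩
    refine ⟨mu.2 ⟨c, hc, by linarith [dist_nonneg (x := x) (y := y)]⟩, fun k => ?_⟩
    obtain ⟨c', hc', k⟩ := mu.1 k
    linarith [far x hx c' hc', dist_triangle x y c']
  · intro x hx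
    obtain ⟨i, hi, y, hy, rfl⟩ := mem_iUnion₂.1 ((U.compact f t 1).isClosed.frontier_subset hx)
    refine mem_iUnion₂.2 ⟨i, hi, ?_⟩
    rcases cover hy (fun a ha => (f i).dist_eq y a ▸ far _ hx _ (mz.2 ⟨i, hi, a, ha, rfl⟩)) with
      (⟨a, ha, e⟩ | ⟨a, ha, e⟩) | ⟨a, ha, e⟩ | ⟨a, ha, e⟩
    · exact Or.inl (Or.inl ⟨a, ha, congrArg (f i) e⟩)
    · exact Or.inl (Or.inr ⟨a, ha, congrArg (f i) e⟩)
    · exact Or.inr (Or.inl ⟨a, ha, by simp [e, nz]⟩)
    · exact Or.inr (Or.inr ⟨a, ha, by simp [e, nz]⟩)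

theorem main (f : ι → ℂ ≃ᵢ ℂ) (t : Finset ι) :
    μH[1] (frontier (U f t 1)) * volume (St 1) ≤ μH[1] (frontier (St 1)) * volume (U f t 1) := by
  have p0 := pi_pos
  obtain ⟨μ, hμ⟩ : ∃ μ : ℝ, μ * (π + 4) = 4 := ⟨4 / (π + 4), by field_simp⟩
  have m2 : μ < 1 := by nlinarith
  have fin := fun s => (U.compact f t s).measure_ne_top (μ := volume)
  have k : ∀ h, 0 < h → h ≤ 1 / 2 → ENNReal.ofReal (h * (1 - h)) * μH[1] (frontier (U f t 1)) ≤
      ENNReal.ofReal (h * ((2 - μ) * volume.real (U f t 1) + t.card * 60 * h)) := by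
    intro h h0 h1
    refine (collar (s := 1 - h - h ^ 2) h0 (by linarith) (by nlinarith) f t).trans ?_
    have sb : U f t (1 - h - h ^ 2) ⊆ U f t 1 := iUnion₂_mono fun i _ z hz =>
      grow _ hz (dist_self z).le (by nlinarith)
    have c := chain hμ h0 h1 f t
    have d := measureReal_mono sb (fin 1)
    rw [← ENNReal.ofReal_toReal (measure_ne_top_of_subset sdiff_subset (fin 1)), ← Measure.real,
      measureReal_sdiff sb (U.compact f t _).measurableSet (fin 1)]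
    refine ENNReal.ofReal_le_ofReal ?_
    nlinarith [mul_le_mul_of_nonneg_left d (show 0 ≤ (2 - μ) * h by nlinarith)]
  have fP : μH[1] (frontier (U f t 1)) ≠ ⊤ := fun e => by
    have := k (1 / 2) (by norm_num) le_rfl
    rw [e, ENNReal.mul_top (by norm_num)] at this
    exact ENNReal.ofReal_ne_top (top_le_iff.1 this)
  have A0 : 0 ≤ volume.real (U f t 1) := measureReal_nonneg
  have l0 : 0 ≤ (2 - μ) * volume.real (U f t 1) := by nlinarith
  have k2 : (μH[1] (frontier (U f t 1))).toReal ≤ (2 - μ) * volume.real (U f t 1) := by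
    set P := (μH[1] (frontier (U f t 1))).toReal
    have l : Tendsto (fun h : ℝ => (2 - μ) * volume.real (U f t 1) + h * (P + t.card * 60))
        (𝓝[>] 0) (𝓝 ((2 - μ) * volume.real (U f t 1) + 0 * (P + t.card * 60))) :=
      tendsto_nhdsWithin_of_tendsto_nhds (Continuous.tendsto (by fun_prop) 0)
    simp only [zero_mul, add_zero] at l
    refine ge_of_tendsto l (eventually_of_mem (Ioc_mem_nhdsGT one_half_pos) fun h hh => ?_)
    have h0 := hh.1
    have := ENNReal.toReal_mono ENNReal.ofReal_ne_top (k h h0 hh.2)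
    rw [ENNReal.toReal_mul, ENNReal.toReal_ofReal (by nlinarith [hh.2]),
      ENNReal.toReal_ofReal (by positivity), mul_assoc] at this
    linarith [le_of_mul_le_mul_left this h0]
  refine le_trans ?_ (mul_le_mul_left St.per _)
  rw [St.vol zero_le_one, ← ENNReal.ofReal_toReal fP, ← ENNReal.ofReal_toReal (fin 1),
    ← ENNReal.ofReal_mul ENNReal.toReal_nonneg, ← ENNReal.ofReal_mul (by positivity)]
  refine ENNReal.ofReal_le_ofReal ((mul_le_mul_of_nonneg_right k2 (by positivity)).trans_eq ?_)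
  rw [Measure.real]
  linear_combination (-(volume (U f t 1)).toReal) * hμ

end Pool.Agent.H.MP_8b7b81_co
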